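import Pool.Agent.Work.MP_7f7c16_ag.Own

set_option autoImplicit false

namespace Pool.Agent.Results.MP_7f7c16_ag.SeventeenPlanes

open MvPolynomial

/-- The polynomial ring `ℚ[x₀,x₁,x₂,x₃]`. -/
abbrev Poly : Type := MvPolynomial (Fin 4) ℚ

/-- The linear form with coefficient vector `v` in `ℚ[x₀,x₁,x₂,x₃]`. -/
noncomputable def form (v : Fin 4 → ℚ) : Poly :=
  ∑ j : Fin 4, (C (v j) * X j : Poly)

/-- The Jacobian ideal of the product of the linear forms of an arrangement. -/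
noncomputable def jacobian {d : ℕ} (ℓ : Fin d → Fin 4 → ℚ) : Ideal Poly :=
  Ideal.span (Set.range fun i : Fin 4 => pderiv (R := ℚ) i (∏ a : Fin d, form (ℓ a)))

/-- The ideal of the union of all lines in which two of the planes meet. -/
noncomputable def lines {d : ℕ} (ℓ : Fin d → Fin 4 → ℚ) : Ideal Poly :=
  ⨅ (a : Fin d) (b : Fin d) (_ : a ≠ b), Ideal.span {form (ℓ a), form (ℓ b)}

/-- The flat cut out by the planes with index in `S`. -/
def flat {d : ℕ} (ℓ : Fin d → Fin 4 → ℚ) (S : Finset (Fin d)) : Set (Fin 4 → ℚ) :=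
  {x | ∀ i ∈ S, ∑ j : Fin 4, ℓ i j * x j = 0}

/-- The intersection lattice: the set of all flats. -/
def lattice {d : ℕ} (ℓ : Fin d → Fin 4 → ℚ) : Set (Set (Fin 4 → ℚ)) :=
  {W | ∃ S : Finset (Fin d), W = flat ℓ S}

/-- The linear forms are pairwise not proportional: `d` distinct planes. -/
def Distinct {d : ℕ} (ℓ : Fin d → Fin 4 → ℚ) : Prop :=
  ∀ i j, i ≠ j → LinearIndependent ℚ ![ℓ i, ℓ j]

/-- Same independent sets, same inclusions between flats, isomorphic intersection lattices. -/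
def SameCombinatorics {d : ℕ} (ℓ m : Fin d → Fin 4 → ℚ) : Prop :=
  (∀ S : Set (Fin d), LinearIndepOn ℚ ℓ S ↔ LinearIndepOn ℚ m S) ∧
  (∀ S T : Finset (Fin d), flat ℓ S ⊆ flat ℓ T ↔ flat m S ⊆ flat m T) ∧
  Nonempty (↥(lattice ℓ) ≃o ↥(lattice m))

/-- Cohen-Macaulay: Noetherian, and at every prime `p` the local ring has a regular sequence in
its maximal ideal whose length is the Krull dimension. -/
def IsCohenMacaulay (A : Type) [CommRing A] : Prop :=
  IsNoetherianRing A ∧ ∀ (p : Ideal A) [p.IsPrime],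
    ∃ rs : List (Localization.AtPrime p),
      (∀ r ∈ rs, r ∈ IsLocalRing.maximalIdeal (Localization.AtPrime p)) ∧
      RingTheory.Sequence.IsRegular (Localization.AtPrime p) rs ∧
      (rs.length : WithBot ℕ∞) = ringKrullDim (Localization.AtPrime p)

/-- The substitution `ℚ[y₀,y₁] → ℚ[x₀,x₁,x₂,x₃]` by two linear forms. -/
noncomputable def subst (s t : Fin 4 → ℚ) : MvPolynomial (Fin 2) ℚ →ₐ[ℚ] Poly :=
  aeval ![form s, form t]

/-- The quotient by `I` is a finite free module over `ℚ[y₀,y₁]`, which acts through the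
substitution `y₀ ↦ s`, `y₁ ↦ t` of two linear forms. -/
def FiniteFree (s t : Fin 4 → ℚ) (I : Ideal Poly) : Prop :=
  letI : Algebra (MvPolynomial (Fin 2) ℚ) Poly := (subst s t).toRingHom.toAlgebra
  Module.Free (MvPolynomial (Fin 2) ℚ) (Poly ⧸ I) ∧
    Module.Finite (MvPolynomial (Fin 2) ℚ) (Poly ⧸ I)

/-- A local ring of dimension at least two without a regular sequence of two elements of its
maximal ideal. -/
def NotDepthTwo (A : Type) [CommRing A] [IsLocalRing A] : Prop :=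
  2 ≤ ringKrullDim A ∧
    ∀ r₁ ∈ IsLocalRing.maximalIdeal A, ∀ r₂ ∈ IsLocalRing.maximalIdeal A,
      ¬ RingTheory.Sequence.IsRegular A [r₁, r₂]

/-- The images of `x₀,…,x₃` generate a prime ideal of the quotient by `I`, and the local ring
there has dimension at least two and depth at most one. -/
def FailsAtVertex (I : Ideal Poly) : Prop :=
  ∃ (p : Ideal (Poly ⧸ I)) (_ : p.IsPrime),
    p = Ideal.span (Set.range fun i : Fin 4 => Ideal.Quotient.mk I (X i)) ∧
    NotDepthTwo (Localization.AtPrime p)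

theorem result :
    ∃ ℓ m : Fin 17 → Fin 4 → ℚ, Distinct ℓ ∧ Distinct m ∧ SameCombinatorics ℓ m ∧
      (jacobian ℓ).radical = lines ℓ ∧ (jacobian m).radical = lines m ∧
      IsCohenMacaulay (Poly ⧸ (jacobian ℓ).radical) ∧
      (∃ s t : Fin 4 → ℚ, FiniteFree s t (jacobian ℓ).radical) ∧
      ¬ IsCohenMacaulay (Poly ⧸ (jacobian m).radical) ∧
      FailsAtVertex (jacobian m).radical := by
  have hrad : ∀ lam : ℤ, Pool.Agent.Work.MP_7f7c16_ag.Good
      (Pool.Agent.Work.MP_7f7c16_ag.LL lam) → Pool.Agent.Work.MP_7f7c16_ag.chk1 lam = true →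
      (jacobian (Pool.Agent.Work.MP_7f7c16_ag.AA lam)).radical =
        Pool.Agent.Work.MP_7f7c16_ag.JE (Pool.Agent.Work.MP_7f7c16_ag.LL lam)
          (Pool.Agent.Work.MP_7f7c16_ag.EE 17) := fun lam hg hc =>
    Pool.Agent.Work.MP_7f7c16_ag.own_rad hg hc
  have hline : ∀ lam : ℤ, Pool.Agent.Work.MP_7f7c16_ag.Good
      (Pool.Agent.Work.MP_7f7c16_ag.LL lam) → Pool.Agent.Work.MP_7f7c16_ag.chk1 lam = true →
      (jacobian (Pool.Agent.Work.MP_7f7c16_ag.AA lam)).radical =
        lines (Pool.Agent.Work.MP_7f7c16_ag.AA lam) := by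
    intro lam hg hc
    exact Pool.Agent.Work.MP_7f7c16_ag.rad_jac _
      (fun a b hab => Pool.Agent.Work.MP_7f7c16_ag.PI_prime' hg
        (fun e => hab (Fin.ext e)) a.2 b.2)
      (Pool.Agent.Work.MP_7f7c16_ag.own_ne_zero hc) (by norm_num)
  have hdep := Pool.Agent.Work.MP_7f7c16_ag.own_depth
      (J := Pool.Agent.Work.MP_7f7c16_ag.JE (Pool.Agent.Work.MP_7f7c16_ag.LL 4)
          (Pool.Agent.Work.MP_7f7c16_ag.EE 17))
      (Pool.Agent.Work.MP_7f7c16_ag.det_ne
      (Pool.Agent.Work.MP_7f7c16_ag.chk1_spec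
        Pool.Agent.Work.MP_7f7c16_ag.chk1_b (a := 0) (b := 3) (by norm_num) (by norm_num)))
      (fun f hf => Pool.Agent.Work.MP_7f7c16_ag.mem_JE.1 hf (0, 3)
        (Pool.Agent.Work.MP_7f7c16_ag.mem_EE.2 (Or.inl (by decide))))
      (Pool.Agent.Work.MP_7f7c16_ag.chain_nd Pool.Agent.Work.MP_7f7c16_ag.good_b
        Pool.Agent.Work.MP_7f7c16_ag.base_nd 17 (by norm_num) le_rfl)
  rw [← hrad 4 Pool.Agent.Work.MP_7f7c16_ag.good_b Pool.Agent.Work.MP_7f7c16_ag.chk1_b] at hdep
  have hff : FiniteFree (Pool.Agent.Work.MP_7f7c16_ag.vec Pool.Agent.Work.MP_7f7c16_ag.sg)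
      (Pool.Agent.Work.MP_7f7c16_ag.vec Pool.Agent.Work.MP_7f7c16_ag.ta)
      (jacobian (Pool.Agent.Work.MP_7f7c16_ag.AA (-1))).radical := by
    unfold FiniteFree
    let _inst : Algebra (MvPolynomial (Fin 2) ℚ) Poly :=
      (subst (Pool.Agent.Work.MP_7f7c16_ag.vec Pool.Agent.Work.MP_7f7c16_ag.sg)
        (Pool.Agent.Work.MP_7f7c16_ag.vec Pool.Agent.Work.MP_7f7c16_ag.ta)).toRingHom.toAlgebra
    rw [hrad (-1) Pool.Agent.Work.MP_7f7c16_ag.good_a Pool.Agent.Work.MP_7f7c16_ag.chk1_a]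
    have hs : algebraMap (MvPolynomial (Fin 2) ℚ) (MvPolynomial (Fin 4) ℚ)
      = (Pool.Agent.Work.MP_7f7c16_ag.phi
        (Pool.Agent.Work.MP_7f7c16_ag.vec Pool.Agent.Work.MP_7f7c16_ag.sg)
        (Pool.Agent.Work.MP_7f7c16_ag.vec Pool.Agent.Work.MP_7f7c16_ag.ta)).toRingHom := rfl
    exact Pool.Agent.Work.MP_7f7c16_ag.chain_ff Pool.Agent.Work.MP_7f7c16_ag.good_a
      (S := MvPolynomial (Fin 2) ℚ)
      (fun a b hab hb => Pool.Agent.Work.MP_7f7c16_ag.PI_ff hs
        (Pool.Agent.Work.MP_7f7c16_ag.det_ne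
          (Pool.Agent.Work.MP_7f7c16_ag.chk1_spec
            Pool.Agent.Work.MP_7f7c16_ag.chk1_a hab hb)))
      (Pool.Agent.Work.MP_7f7c16_ag.base_ff hs) 17 (by norm_num) le_rfl
  refine ⟨Pool.Agent.Work.MP_7f7c16_ag.AA (-1), Pool.Agent.Work.MP_7f7c16_ag.AA 4,
    Pool.Agent.Work.MP_7f7c16_ag.own_indep Pool.Agent.Work.MP_7f7c16_ag.chk1_a,
    Pool.Agent.Work.MP_7f7c16_ag.own_indep Pool.Agent.Work.MP_7f7c16_ag.chk1_b,
    ⟨Pool.Agent.Work.MP_7f7c16_ag.own_matroid,
      Pool.Agent.Work.MP_7f7c16_ag.own_flats,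
      Pool.Agent.Work.MP_7f7c16_ag.lattices_iso⟩,
    hline _ Pool.Agent.Work.MP_7f7c16_ag.good_a Pool.Agent.Work.MP_7f7c16_ag.chk1_a,
    hline _ Pool.Agent.Work.MP_7f7c16_ag.good_b Pool.Agent.Work.MP_7f7c16_ag.chk1_b,
    ?_, ⟨_, _, hff⟩, ?_, hdep⟩
  · refine ⟨inferInstance, fun p hp => ?_⟩
    let _inst : Algebra (MvPolynomial (Fin 2) ℚ) Poly :=
      (subst (Pool.Agent.Work.MP_7f7c16_ag.vec Pool.Agent.Work.MP_7f7c16_ag.sg)
        (Pool.Agent.Work.MP_7f7c16_ag.vec Pool.Agent.Work.MP_7f7c16_ag.ta)).toRingHom.toAlgebra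
    obtain ⟨hfree, hfin⟩ := hff
    exact Pool.Agent.Work.MP_7f7c16_ag.cm_of_finite_free p
  · rintro ⟨-, hcm⟩
    obtain ⟨p, hp, -, hdim, hno⟩ := hdep
    obtain ⟨rs, hrs1, hrs2, hrs3⟩ := hcm p
    rw [← hrs3] at hdim
    have hlen : 2 ≤ rs.length := by
      have h1 : ((2 : ℕ) : WithBot ℕ∞) ≤ ((rs.length : ℕ) : WithBot ℕ∞) := hdim
      exact_mod_cast h1
    match rs, hrs1, hrs2, hlen with
    | [], _, _, hlen => simp at hlen
    | [_], _, _, hlen => simp at hlen
    | r1 :: r2 :: rest, hrs1, hrs2, _ =>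
      have hm1 := hrs1 r1 (by simp)
      have hm2 := hrs1 r2 (by simp)
      refine hno r1 hm1 r2 hm2 ?_
      have hw := hrs2.toIsWeaklyRegular
      rw [RingTheory.Sequence.isWeaklyRegular_cons_iff,
        RingTheory.Sequence.isWeaklyRegular_cons_iff] at hw
      refine ⟨?_, ?_⟩
      · rw [RingTheory.Sequence.isWeaklyRegular_cons_iff,
          RingTheory.Sequence.isWeaklyRegular_singleton_iff]
        exact ⟨hw.1, hw.2.1⟩
      · intro htop
        have hle : (Ideal.ofList [r1, r2] : Ideal (Localization.AtPrime p))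
            ≤ IsLocalRing.maximalIdeal (Localization.AtPrime p) := by
          rw [Ideal.ofList, Ideal.span_le]
          intro r hr
          have hr' : r ∈ [r1, r2] := hr
          simp only [List.mem_cons, List.not_mem_nil, or_false] at hr'
          rcases hr' with rfl | rfl
          · exact hm1
          · exact hm2
        have h1 : (1 : Localization.AtPrime p) ∈ IsLocalRing.maximalIdeal
            (Localization.AtPrime p) := by
          have h2 : (1 : Localization.AtPrime p) ∈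
              (Ideal.ofList [r1, r2] : Ideal (Localization.AtPrime p)) •
                (⊤ : Submodule (Localization.AtPrime p) (Localization.AtPrime p)) := by
            rw [← htop]
            trivial
          rw [Ideal.smul_top_eq_map] at h2
          have h3 : (1 : Localization.AtPrime p) ∈
              (Ideal.ofList [r1, r2] : Ideal (Localization.AtPrime p)) := by
            simpa using h2
          exact hle h3
        exact (IsLocalRing.notMem_maximalIdeal.2 isUnit_one) h1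

end Pool.Agent.Results.MP_7f7c16_ag.SeventeenPlanes
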